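import Pool.Agent.Helper95.PW.Stmts

set_option autoImplicit false

namespace Pool.Agent.Helper95.PW

open MeasureTheory Filter

/-- sharper form of `ST_MOM` -/
def ST_MOM2 : Prop := ∃ C : ℝ, 0 < C ∧ ∀ (n : ℕ) (E : ℝ) (φ : Wf n) (G : Fin n → Fin 3 → Wf n),
  1 ≤ n → Ground n E φ G → E ≤ 0 → mom G ≤ C * (n : ℝ) ^ (34 / 15 : ℝ)

theorem MOM2_sq_nonneg {n : ℕ} (a : Wf n) : 0 ≤ sq a :=
  Finset.sum_nonneg fun _ _ => integral_nonneg fun _ => sq_nonneg _

theorem MOM2_tri {n : ℕ} (a b : Wf n) (ha : ∀ s, MemLp (a s) 2) (hb : ∀ s, MemLp (b s) 2) :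
    Real.sqrt (sq (fun s x => a s x + b s x)) ≤ Real.sqrt (sq a) + Real.sqrt (sq b) := by
  have iaa : ∀ s, Integrable (fun x => a s x ^ 2) := fun s => (ha s).integrable_sq
  have ibb : ∀ s, Integrable (fun x => b s x ^ 2) := fun s => (hb s).integrable_sq
  have iab : ∀ s, Integrable (fun x => a s x * b s x) := fun s => (ha s).integrable_mul (hb s)
  have hexp : ∀ t : ℝ, sq (fun s x => a s x + t * b s x) = sq a + 2 * t * ip a b + t ^ 2 * sq b := by
    intro t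
    unfold sq ip
    rw [Finset.mul_sum, Finset.mul_sum, ← Finset.sum_add_distrib, ← Finset.sum_add_distrib]
    refine Finset.sum_congr rfl fun s _ => ?_
    have e0 : ∀ x, (a s x + t * b s x) ^ 2 =
        (a s x ^ 2 + 2 * t * (a s x * b s x)) + t ^ 2 * b s x ^ 2 := fun x => by ring
    have i1 : Integrable (fun x => 2 * t * (a s x * b s x)) := (iab s).const_mul _
    have i2 : Integrable (fun x => t ^ 2 * b s x ^ 2) := (ibb s).const_mul _
    have i3 : Integrable (fun x => a s x ^ 2 + 2 * t * (a s x * b s x)) := (iaa s).add i1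
    simp only [e0]
    rw [integral_add i3 i2, integral_add (iaa s) i1, integral_const_mul, integral_const_mul]
  have hA := MOM2_sq_nonneg a
  have hB := MOM2_sq_nonneg b
  have hcs : (ip a b) ^ 2 ≤ sq a * sq b := by
    have hd : discrim (sq b) (2 * ip a b) (sq a) ≤ 0 := by
      apply discrim_le_zero
      intro t
      have h1 := MOM2_sq_nonneg (fun s x => a s x + t * b s x)
      rw [hexp t] at h1
      nlinarith [h1]
    unfold discrim at hd
    nlinarith [hd]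
  have h1 := hexp 1
  have e1 : (fun s x => a s x + 1 * b s x) = (fun s x => a s x + b s x) := by
    funext s x; ring
  rw [e1] at h1
  rw [h1]
  apply Real.sqrt_le_iff.mpr
  refine ⟨by positivity, ?_⟩
  have h2 : ip a b ≤ Real.sqrt (sq a) * Real.sqrt (sq b) := by
    rw [← Real.sqrt_mul hA]
    exact Real.le_sqrt_of_sq_le hcs
  nlinarith [Real.sq_sqrt hA, Real.sq_sqrt hB]

theorem MOM2_pd_sub {g h : R3 → ℝ} (hg : Differentiable ℝ g) (hh : Differentiable ℝ h) (i : Fin 3)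
    (y : R3) : pd i (fun y => g y - h y) y = pd i g y - pd i h y := by
  unfold pd
  rw [fderiv_fun_sub (hg y) (hh y)]
  rfl

theorem MOM2_pd_smooth {g : R3 → ℝ} (hg : ContDiff ℝ (⊤ : ℕ∞) g) (i : Fin 3) :
    ContDiff ℝ (⊤ : ℕ∞) (pd i g) := by
  unfold pd
  exact (hg.fderiv_right (m := (⊤ : ℕ∞)) (by simp)).clm_apply contDiff_const

theorem MOM2_PG_split {n : ℕ} {g h : R3 → ℝ} (hg : ContDiff ℝ (⊤ : ℕ∞) g)
    (hh : ContDiff ℝ (⊤ : ℕ∞) h) (φ : Wf n) (G : Fin n → Fin 3 → Wf n) :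
    PG g φ G = fun s x => PG (fun y => g y - h y) φ G s x + PG h φ G s x := by
  have h1 : ∀ i, pd i (fun y => g y - h y) = fun y => pd i g y - pd i h y := by
    intro i
    funext y
    exact MOM2_pd_sub (hg.differentiable (by simp)) (hh.differentiable (by simp)) i y
  have h2 : ∀ y, lap (fun y => g y - h y) y = lap g y - lap h y := by
    intro y
    unfold lap
    rw [← Finset.sum_sub_distrib]
    refine Finset.sum_congr rfl fun i _ => ?_
    rw [h1 i]
    exact MOM2_pd_sub ((MOM2_pd_smooth hg i).differentiable (by simp))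
      ((MOM2_pd_smooth hh i).differentiable (by simp)) i y
  funext s x
  unfold PG
  rw [← Finset.sum_add_distrib]
  refine Finset.sum_congr rfl fun k _ => ?_
  have h3 : ∀ i, pd i (fun y => g y - h y) (x k) = pd i g (x k) - pd i h (x k) := by
    intro i; rw [h1 i]
  simp only [h3, h2, sub_mul, Finset.sum_sub_distrib]
  ring

theorem MOM2_memLp {n : ℕ} {g : R3 → ℝ} {K r : ℝ} (hg : Scale g K r) {E : ℝ} {φ : Wf n}
    {G : Fin n → Fin 3 → Wf n} (hG : Ground n E φ G) (s : Fin n → Fin 2) :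
    MemLp (PG g φ G s) 2 := by
  have key : ∀ (c : R3 → ℝ) (f : Cf n → ℝ) (k : Fin n) (B : ℝ), Continuous c → (∀ y, |c y| ≤ B) →
      MemLp f 2 → MemLp (fun x : Cf n => c (x k) * f x) 2 := by
    intro c f k B hc hB hf
    refine MemLp.of_le_mul (c := B) hf ?_ ?_
    · exact ((hc.comp (continuous_apply k)).aestronglyMeasurable).mul hf.aestronglyMeasurable
    · refine Eventually.of_forall fun x => ?_
      rw [norm_mul]
      exact mul_le_mul_of_nonneg_right (by simpa [Real.norm_eq_abs] using hB (x k)) (norm_nonneg _)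
  have e : PG g φ G s = fun x => ∑ k, ((∑ i, pd i g (x k) * G k i s x) +
      lap g (x k) / 2 * φ s x) := rfl
  rw [e]
  refine memLp_finsetSum _ fun k _ => ?_
  refine MemLp.add (f := fun x => ∑ i, pd i g (x k) * G k i s x)
    (g := fun x => lap g (x k) / 2 * φ s x) ?_ ?_
  · refine memLp_finsetSum _ fun i _ => ?_
    exact key (pd i g) (G k i s) k K ((MOM2_pd_smooth hg.sm i).continuous) (hg.d1 i) (hG.lpG k i s)
  · have hlc : Continuous (fun y => lap g y / 2) := by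
      unfold lap
      refine Continuous.div_const ?_ _
      refine continuous_finsetSum _ fun i _ => ?_
      exact (MOM2_pd_smooth (MOM2_pd_smooth hg.sm i) i).continuous
    refine key (fun y => lap g y / 2) (φ s) k (3 * |K / r| / 2) hlc ?_ (hG.lp s)
    intro y
    rw [abs_div, abs_of_pos (by norm_num : (0:ℝ) < 2)]
    refine div_le_div_of_nonneg_right ?_ (by norm_num)
    unfold lap
    refine (Finset.abs_sum_le_sum_abs _ _).trans ?_
    refine (Finset.sum_le_sum fun i _ => (hg.d2 i i y).trans (le_abs_self _)).trans ?_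
    simp

/-- norm of the cut off momentum -/
noncomputable def MOM2_f {n : ℕ} (φ : Wf n) (G : Fin n → Fin 3 → Wf n) (m : Fin 3) (R : ℝ) : ℝ :=
  Real.sqrt (sq (PG (gm m R) φ G))

theorem MOM2_step (hC : ST_CUT) {n : ℕ} {E : ℝ} {φ : Wf n} {G : Fin n → Fin 3 → Wf n}
    (hG : Ground n E φ G) (m : Fin 3) {r R : ℝ} (hr : 0 < r) (hrR : r ≤ R) :
    MOM2_f φ G m R ≤ Real.sqrt (sq (PG (fun y => gm m R y - gm m r y) φ G)) + MOM2_f φ G m r := by
  obtain ⟨K, hK, h1, h2⟩ := hC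
  have hR := h1 m R (hr.trans_le hrR)
  have hr' := h1 m r hr
  have hd := h2 m r R hr hrR
  unfold MOM2_f
  rw [MOM2_PG_split hR.1.sm hr'.1.sm φ G]
  exact MOM2_tri _ _ (MOM2_memLp hd.1 hG) (MOM2_memLp hr'.1 hG)

/-- the numbers: a shell -/
theorem MOM2_num {N R r X C : ℝ} (hN : 1 ≤ N) (hC : 0 < C) (hR1 : 1 / N ≤ R) (hr : R / 2 ≤ r)
    (hX : X ^ 2 ≤ C * ((1 + (N ^ (7 / 3 : ℝ) * R ^ 2) ^ (3 / 5 : ℝ)) *
      (N ^ (7 / 3 : ℝ) / r ^ 2 + (1 + (N ^ (7 / 3 : ℝ) * R ^ 2) ^ (3 / 5 : ℝ)) / r ^ 4))) :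
    X ≤ Real.sqrt (80 * C) * (N ^ (28 / 15 : ℝ) * R ^ (-(2 / 5) : ℝ)) := by
  have hN0 : 0 < N := by linarith
  have hR0 : 0 < R := lt_of_lt_of_le (by positivity) hR1
  obtain ⟨a, rfl⟩ : ∃ a, N = Real.exp a := ⟨Real.log N, (Real.exp_log hN0).symm⟩
  obtain ⟨b, rfl⟩ : ∃ b, R = Real.exp b := ⟨Real.log R, (Real.exp_log hR0).symm⟩
  have ha : 0 ≤ a := Real.exp_le_exp.mp (by rwa [Real.exp_zero])
  have hab : 0 ≤ a + b := by
    rw [one_div, ← Real.exp_neg, Real.exp_le_exp] at hR1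
    linarith
  have e1 : (Real.exp a ^ (7 / 3 : ℝ) * Real.exp b ^ 2) ^ (3 / 5 : ℝ)
      = Real.exp (7 / 5 * a + 6 / 5 * b) := by
    rw [← Real.exp_mul, ← Real.exp_nat_mul, ← Real.exp_add, ← Real.exp_mul]
    congr 1
    push_cast
    ring
  have e2 : Real.exp a ^ (7 / 3 : ℝ) = Real.exp (7 / 3 * a) := by
    rw [← Real.exp_mul]; congr 1; ring
  have e3 : Real.exp a ^ (28 / 15 : ℝ) * Real.exp b ^ (-(2 / 5) : ℝ)
      = Real.exp (28 / 15 * a - 2 / 5 * b) := by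
    rw [← Real.exp_mul, ← Real.exp_mul, ← Real.exp_add]; congr 1; ring
  rw [e1, e2] at hX
  rw [e3]
  set y := Real.exp (7 / 5 * a + 6 / 5 * b) with hy
  have hy1 : 1 ≤ y := Real.one_le_exp (by linarith)
  have hr0 : 0 < r := lt_of_lt_of_le (by positivity) hr
  have h2 : 1 / r ^ 2 ≤ 4 * Real.exp (-(2 * b)) := by
    have h3 : Real.exp (2 * b) ≤ 4 * r ^ 2 := by
      have : Real.exp (2 * b) = Real.exp b ^ 2 := by
        rw [← Real.exp_nat_mul]; congr 1
      rw [this]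
      nlinarith [Real.exp_pos b]
    rw [Real.exp_neg, div_le_iff₀ (by positivity), mul_assoc]
    have h4 : (1:ℝ) = 4 * ((Real.exp (2 * b))⁻¹ * (Real.exp (2 * b) / 4)) := by
      field_simp
    rw [h4]
    gcongr
    linarith
  have h4 : 1 / r ^ 4 ≤ 16 * Real.exp (-(4 * b)) := by
    have h5 : (1 / r ^ 2) ^ 2 ≤ (4 * Real.exp (-(2 * b))) ^ 2 := by gcongr
    have h6 : (1 / r ^ 2) ^ 2 = 1 / r ^ 4 := by
      field_simp
    have h7 : (4 * Real.exp (-(2 * b))) ^ 2 = 16 * Real.exp (-(4 * b)) := by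
      rw [mul_pow, ← Real.exp_nat_mul]; norm_num; ring
    rw [h6, h7] at h5
    exact h5
  have hB : (1 + y) * (Real.exp (7 / 3 * a) / r ^ 2 + (1 + y) / r ^ 4)
      ≤ (2 * y) * (Real.exp (7 / 3 * a) * (4 * Real.exp (-(2 * b))) +
        (2 * y) * (16 * Real.exp (-(4 * b)))) := by
    have k1 : Real.exp (7 / 3 * a) / r ^ 2 ≤ Real.exp (7 / 3 * a) * (4 * Real.exp (-(2 * b))) := by
      rw [div_eq_mul_one_div]; gcongr
    have k2 : (1 + y) / r ^ 4 ≤ (2 * y) * (16 * Real.exp (-(4 * b))) := by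
      rw [div_eq_mul_one_div]
      gcongr
      linarith
    have k3 : 1 + y ≤ 2 * y := by linarith
    gcongr
  have hB2 : (2 * y) * (Real.exp (7 / 3 * a) * (4 * Real.exp (-(2 * b))) +
        (2 * y) * (16 * Real.exp (-(4 * b))))
      = 8 * Real.exp (2 * (28 / 15 * a - 2 / 5 * b)) + 64 * Real.exp (14 / 5 * a - 8 / 5 * b) := by
    have m1 : y * Real.exp (7 / 3 * a) * Real.exp (-(2 * b))
        = Real.exp (2 * (28 / 15 * a - 2 / 5 * b)) := by
      rw [hy, ← Real.exp_add, ← Real.exp_add]; congr 1; ring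
    have m2 : y * y * Real.exp (-(4 * b)) = Real.exp (14 / 5 * a - 8 / 5 * b) := by
      rw [hy, ← Real.exp_add, ← Real.exp_add]; congr 1; ring
    rw [← m1, ← m2]; ring
  have hB3 : Real.exp (14 / 5 * a - 8 / 5 * b) ≤ Real.exp (2 * (28 / 15 * a - 2 / 5 * b)) := by
    apply Real.exp_le_exp.mpr
    nlinarith
  have hX2 : X ^ 2 ≤ (80 * C) * Real.exp (28 / 15 * a - 2 / 5 * b) ^ 2 := by
    have e5 : Real.exp (28 / 15 * a - 2 / 5 * b) ^ 2 = Real.exp (2 * (28 / 15 * a - 2 / 5 * b)) := by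
      rw [← Real.exp_nat_mul]; congr 1
    rw [e5]
    have h9 : X ^ 2 ≤ C * (8 * Real.exp (2 * (28 / 15 * a - 2 / 5 * b)) +
        64 * Real.exp (14 / 5 * a - 8 / 5 * b)) := by
      refine hX.trans ?_
      rw [← hB2]
      gcongr
    have h10 : C * (8 * Real.exp (2 * (28 / 15 * a - 2 / 5 * b)) +
        64 * Real.exp (14 / 5 * a - 8 / 5 * b)) ≤ C * (80 * Real.exp (2 * (28 / 15 * a - 2 / 5 * b))) := by
      gcongr
      nlinarith [Real.exp_pos (2 * (28 / 15 * a - 2 / 5 * b))]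
    linarith
  have h11 : X ≤ Real.sqrt ((80 * C) * Real.exp (28 / 15 * a - 2 / 5 * b) ^ 2) :=
    Real.le_sqrt_of_sq_le hX2
  rwa [Real.sqrt_mul (by positivity), Real.sqrt_sq (Real.exp_pos _).le] at h11

/-- the numbers: the inner ball -/
theorem MOM2_num0 {N X C : ℝ} (hN : 1 ≤ N) (hC : 0 < C)
    (hX : X ^ 2 ≤ C * ((1 + (N ^ (7 / 3 : ℝ) * (1 / N) ^ 2) ^ (3 / 5 : ℝ)) *
      (N ^ (7 / 3 : ℝ) / (1 / N) ^ 2 + (1 + (N ^ (7 / 3 : ℝ) * (1 / N) ^ 2) ^ (3 / 5 : ℝ)) /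
        (1 / N) ^ 4 + N ^ (13 / 3 : ℝ)))) :
    X ≤ Real.sqrt (80 * C) * N ^ (34 / 15 : ℝ) := by
  have hN0 : 0 < N := by linarith
  obtain ⟨a, rfl⟩ : ∃ a, N = Real.exp a := ⟨Real.log N, (Real.exp_log hN0).symm⟩
  have ha : 0 ≤ a := Real.exp_le_exp.mp (by rwa [Real.exp_zero])
  have e0 : (1:ℝ) / Real.exp a = Real.exp (-a) := by rw [Real.exp_neg, one_div]
  have e1 : (Real.exp a ^ (7 / 3 : ℝ) * Real.exp (-a) ^ 2) ^ (3 / 5 : ℝ)
      = Real.exp (1 / 5 * a) := by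
    rw [← Real.exp_mul, ← Real.exp_nat_mul, ← Real.exp_add, ← Real.exp_mul]
    congr 1
    push_cast
    ring
  have e2 : Real.exp a ^ (7 / 3 : ℝ) / Real.exp (-a) ^ 2 = Real.exp (13 / 3 * a) := by
    rw [← Real.exp_mul, ← Real.exp_nat_mul, ← Real.exp_sub]; congr 1; push_cast; ring
  have e3 : Real.exp a ^ (13 / 3 : ℝ) = Real.exp (13 / 3 * a) := by
    rw [← Real.exp_mul]; congr 1; ring
  have e4 : Real.exp a ^ (34 / 15 : ℝ) = Real.exp (34 / 15 * a) := by
    rw [← Real.exp_mul]; congr 1; ring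
  have e5 : (1 + Real.exp (1 / 5 * a)) / Real.exp (-a) ^ 4
      = (1 + Real.exp (1 / 5 * a)) * Real.exp (4 * a) := by
    rw [← Real.exp_nat_mul, div_eq_mul_inv, ← Real.exp_neg]
    congr 2
    push_cast
    ring
  rw [e0, e1, e2, e3, e5] at hX
  rw [e4]
  set y := Real.exp (1 / 5 * a) with hy
  have hy1 : 1 ≤ y := Real.one_le_exp (by linarith)
  have k1 : y * Real.exp (13 / 3 * a) = Real.exp (34 / 15 * a) ^ 2 := by
    rw [hy, ← Real.exp_add, ← Real.exp_nat_mul]; congr 1; push_cast; ring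
  have k2 : y * Real.exp (4 * a) ≤ Real.exp (13 / 3 * a) := by
    rw [hy, ← Real.exp_add]
    apply Real.exp_le_exp.mpr
    linarith
  have hX2 : X ^ 2 ≤ (80 * C) * Real.exp (34 / 15 * a) ^ 2 := by
    refine hX.trans ?_
    rw [← k1]
    have h1 : (1 + y) * Real.exp (4 * a) ≤ 2 * Real.exp (13 / 3 * a) := by
      have : (1 + y) * Real.exp (4 * a) ≤ (2 * y) * Real.exp (4 * a) := by
        gcongr; linarith
      nlinarith
    have h2 : (1 + y) * (Real.exp (13 / 3 * a) + (1 + y) * Real.exp (4 * a) +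
        Real.exp (13 / 3 * a)) ≤ (2 * y) * (4 * Real.exp (13 / 3 * a)) := by
      have h3 : 1 + y ≤ 2 * y := by linarith
      have h4 : Real.exp (13 / 3 * a) + (1 + y) * Real.exp (4 * a) + Real.exp (13 / 3 * a)
          ≤ 4 * Real.exp (13 / 3 * a) := by linarith
      have h5 : 0 ≤ Real.exp (13 / 3 * a) + (1 + y) * Real.exp (4 * a) +
        Real.exp (13 / 3 * a) := by positivity
      exact mul_le_mul h3 h4 h5 (by linarith)
    have h6 := mul_le_mul_of_nonneg_left h2 hC.le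
    have h7 : 0 ≤ C * (y * Real.exp (13 / 3 * a)) := by positivity
    nlinarith
  have h11 : X ≤ Real.sqrt ((80 * C) * Real.exp (34 / 15 * a) ^ 2) :=
    Real.le_sqrt_of_sq_le hX2
  rwa [Real.sqrt_mul (by positivity), Real.sqrt_sq (Real.exp_pos _).le] at h11

/-- all radii -/
theorem MOM2_all (hP : ST_PIE) (hI : ST_INN) (hC : ST_CUT) : ∃ D : ℝ, 0 < D ∧
    ∀ (n : ℕ) (E : ℝ) (φ : Wf n) (G : Fin n → Fin 3 → Wf n) (m : Fin 3), 1 ≤ n →
    Ground n E φ G → E ≤ 0 → ∀ R : ℝ, 1 / (n : ℝ) ≤ R →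
    MOM2_f φ G m R ≤ D * (n : ℝ) ^ (17 / 15 : ℝ) := by
  obtain ⟨C1, hC1, hP⟩ := hP
  obtain ⟨C2, hC2, hI⟩ := hI
  set q : ℝ := (2:ℝ) ^ (-(1 / 5) : ℝ) with hq
  have hq0 : 0 < q := by positivity
  have hq1 : q < 1 := by
    rw [hq]
    exact Real.rpow_lt_one_of_one_lt_of_neg (by norm_num) (by norm_num)
  set c1 : ℝ := Real.sqrt (Real.sqrt (80 * C2)) with hc1
  set c2 : ℝ := Real.sqrt (Real.sqrt (80 * C1)) with hc2
  have hc1p : 0 < c1 := by positivity
  have hc2p : 0 < c2 := by positivity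
  refine ⟨c1 + c2 / (1 - q), by
    have : 0 < 1 - q := by linarith
    positivity, ?_⟩
  intro n E φ G m hn hG hE
  have hN : (1:ℝ) ≤ n := by exact_mod_cast hn
  have hN0 : (0:ℝ) < n := by linarith
  set N : ℝ := (n:ℝ) with hNdef
  -- the inner ball
  have hin : MOM2_f φ G m (1 / N) ≤ c1 * N ^ (17 / 15 : ℝ) := by
    have h1 := hI n E φ G m (1 / N) _ hn hG hE (by positivity) rfl
    have h2 := MOM2_num0 hN hC2 h1
    unfold MOM2_f
    refine (Real.sqrt_le_sqrt h2).trans (le_of_eq ?_)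
    rw [Real.sqrt_mul (Real.sqrt_nonneg _), hc1]
    congr 1
    rw [Real.sqrt_eq_rpow, ← Real.rpow_mul hN0.le]
    norm_num
  -- one shell
  have hsh : ∀ r R : ℝ, 1 / N ≤ R → 0 < r → R / 2 ≤ r → r ≤ R →
      MOM2_f φ G m R ≤ c2 * (N ^ (14 / 15 : ℝ) * R ^ (-(1 / 5) : ℝ)) + MOM2_f φ G m r := by
    intro r R hR1 hr0 hr hrR
    have hR0 : 0 < R := hr0.trans_le hrR
    have h1 := hP n E φ G m r R _ hn hG hE hr0 hrR (Or.inr rfl)
    have h2 := MOM2_num hN hC1 hR1 hr h1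
    have h3 := MOM2_step hC hG m hr0 hrR
    refine h3.trans (add_le_add_left ?_ _)
    refine (Real.sqrt_le_sqrt h2).trans (le_of_eq ?_)
    have hs : Real.sqrt (N ^ (28 / 15 : ℝ) * R ^ (-(2 / 5) : ℝ)) =
        N ^ (14 / 15 : ℝ) * R ^ (-(1 / 5) : ℝ) := by
      rw [Real.sqrt_mul (Real.rpow_nonneg hN0.le _), Real.sqrt_eq_rpow, Real.sqrt_eq_rpow,
        ← Real.rpow_mul hN0.le, ← Real.rpow_mul hR0.le]
      norm_num
    rw [Real.sqrt_mul (Real.sqrt_nonneg _), hc2, hs]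
  -- induction
  have hind : ∀ j : ℕ, ∀ R : ℝ, 2 ^ j / N ≤ R → R ≤ 2 ^ (j + 1) / N →
      MOM2_f φ G m R ≤ c1 * N ^ (17 / 15 : ℝ) +
        c2 * N ^ (17 / 15 : ℝ) * ∑ i ∈ Finset.range (j + 1), q ^ i := by
    have hpw : ∀ (j : ℕ) (R : ℝ), 2 ^ j / N ≤ R →
        N ^ (14 / 15 : ℝ) * R ^ (-(1 / 5) : ℝ) ≤ N ^ (17 / 15 : ℝ) * q ^ j := by
      intro j R hR
      have h0 : (0:ℝ) < 2 ^ j / N := by positivity
      have h1 : R ^ (-(1 / 5) : ℝ) ≤ (2 ^ j / N) ^ (-(1 / 5) : ℝ) :=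
        Real.rpow_le_rpow_of_nonpos h0 hR (by norm_num)
      have h2 : (2 ^ j / N : ℝ) ^ (-(1 / 5) : ℝ) = q ^ j * N ^ (1 / 5 : ℝ) := by
        rw [Real.div_rpow (by positivity) hN0.le, hq, ← Real.rpow_natCast, ← Real.rpow_natCast,
          ← Real.rpow_mul (by norm_num), ← Real.rpow_mul (by norm_num), div_eq_mul_inv,
          ← Real.rpow_neg hN0.le]
        congr 2
        · ring
        · ring
      rw [h2] at h1
      calc N ^ (14 / 15 : ℝ) * R ^ (-(1 / 5) : ℝ) ≤ N ^ (14 / 15 : ℝ) * (q ^ j * N ^ (1 / 5 : ℝ)) := by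
            gcongr
        _ = (N ^ (14 / 15 : ℝ) * N ^ (1 / 5 : ℝ)) * q ^ j := by ring
        _ = N ^ (17 / 15 : ℝ) * q ^ j := by
            rw [← Real.rpow_add hN0]; norm_num
    intro j
    induction j with
    | zero =>
      intro R h1 h2
      have h1' : 1 / N ≤ R := by simpa using h1
      have h2' : R / 2 ≤ 1 / N := by
        have : R ≤ 2 / N := by simpa using h2
        have h3 : R / 2 ≤ (2 / N) / 2 := by linarith
        refine h3.trans (le_of_eq (by ring))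
      have h3 := hsh (1 / N) R h1' (by positivity) h2' h1'
      have h4 := hpw 0 R h1
      rw [pow_zero, mul_one] at h4
      simp only [zero_add, Finset.range_one, Finset.sum_singleton, pow_zero, mul_one]
      have h5 := mul_le_mul_of_nonneg_left h4 hc2p.le
      linarith
    | succ j ih =>
      intro R h1 h2
      have hR0 : 0 < R := lt_of_lt_of_le (by positivity) h1
      have hR1 : 1 / N ≤ R := by
        refine le_trans ?_ h1
        gcongr
        exact one_le_pow₀ (by norm_num)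
      have h3 := hsh (R / 2) R hR1 (by positivity) le_rfl (by linarith)
      have h4 := ih (R / 2) (by
        have : (2:ℝ) ^ (j + 1) / N = 2 * (2 ^ j / N) := by ring
        linarith) (by
        have : (2:ℝ) ^ (j + 1 + 1) / N = 2 * (2 ^ (j + 1) / N) := by ring
        linarith)
      have h5 := hpw (j + 1) R h1
      have h6 := mul_le_mul_of_nonneg_left h5 hc2p.le
      rw [Finset.sum_range_succ]
      nlinarith
  intro R hR
  have hRN : 1 ≤ R * N := by
    rw [div_le_iff₀ hN0] at hR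
    exact hR
  obtain ⟨j, hj1, hj2⟩ := exists_nat_pow_near hRN (by norm_num : (1:ℝ) < 2)
  have h1 := hind j R (by rw [div_le_iff₀ hN0]; exact hj1) (by
    rw [le_div_iff₀ hN0]; exact hj2.le)
  have h2 : ∑ i ∈ Finset.range (j + 1), q ^ i ≤ 1 / (1 - q) := by
    rw [geom_sum_eq hq1.ne]
    rw [← neg_div_neg_eq, neg_sub, neg_sub]
    have : 0 < 1 - q := by linarith
    gcongr
    have := pow_pos hq0 (j + 1)
    linarith
  have h3 : c2 * N ^ (17 / 15 : ℝ) * ∑ i ∈ Finset.range (j + 1), q ^ i ≤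
      c2 * N ^ (17 / 15 : ℝ) * (1 / (1 - q)) := by gcongr
  refine h1.trans ?_
  have e : (c1 + c2 / (1 - q)) * N ^ (17 / 15 : ℝ) = c1 * N ^ (17 / 15 : ℝ) +
      c2 * N ^ (17 / 15 : ℝ) * (1 / (1 - q)) := by ring
  rw [e]
  linarith

theorem st_MOM2 (h1 : ST_PIE) (h2 : ST_INN) (h3 : ST_LIM) (h4 : ST_CUT) : ST_MOM2 := by
  obtain ⟨D, hD, hall⟩ := MOM2_all h1 h2 h4
  refine ⟨3 * D ^ 2, by positivity, ?_⟩
  intro n E φ G hn hG hE
  have hN : (1:ℝ) ≤ n := by exact_mod_cast hn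
  have hN0 : (0:ℝ) < n := by linarith
  have hm : ∀ m : Fin 3, sq (fun s x => ∑ k, G k m s x) ≤ D ^ 2 * (n : ℝ) ^ (34 / 15 : ℝ) := by
    intro m
    refine le_of_tendsto' (h3 n E φ G m hG) fun L => ?_
    have hL : 1 / (n : ℝ) ≤ (L : ℝ) + 1 := by
      have : 1 / (n : ℝ) ≤ 1 := by
        rw [div_le_one hN0]; exact hN
      have : (0:ℝ) ≤ L := Nat.cast_nonneg L
      linarith
    have h5 := hall n E φ G m hn hG hE ((L : ℝ) + 1) hL
    unfold MOM2_f at h5
    have h6 : sq (PG (gm m ((L:ℝ) + 1)) φ G) ≤ (D * (n : ℝ) ^ (17 / 15 : ℝ)) ^ 2 := by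
      have h7 := Real.sqrt_le_iff.mp h5
      exact h7.2
    refine h6.trans (le_of_eq ?_)
    rw [mul_pow, ← Real.rpow_natCast ((n:ℝ) ^ (17 / 15 : ℝ)), ← Real.rpow_mul hN0.le]
    norm_num
  unfold mom
  refine (Finset.sum_le_sum fun i _ => hm i).trans (le_of_eq ?_)
  simp
  ring

end Pool.Agent.Helper95.PW
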