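import Mathlib

/-!
# Many-electron atoms: definitions

Positions of `n` electrons, real wave functions with spin, derivatives, kinetic energy,
Coulomb terms, ground states, one-body momentum operators.
-/

set_option autoImplicit false

namespace Pool.Agent.Helper95.PW

open MeasureTheory Filter

/-- space -/
abbrev R3 := Fin 3 → ℝ

/-- positions of `n` electrons -/
abbrev Cf (n : ℕ) := Fin n → R3

/-- real wave functions of `n` electrons with spin -/
abbrev Wf (n : ℕ) := (Fin n → Fin 2) → Cf n → ℝ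

/-- euclidean length in space -/
noncomputable def nr (y : R3) : ℝ := Real.sqrt (y 0 ^ 2 + y 1 ^ 2 + y 2 ^ 2)

/-- smooth functions with compact support -/
def Sm {n : ℕ} (u : Wf n) : Prop := ∀ s, ContDiff ℝ (⊤ : ℕ∞) (u s) ∧ HasCompactSupport (u s)

/-- antisymmetric -/
def Anti {n : ℕ} (u : Wf n) : Prop :=
  ∀ (π : Equiv.Perm (Fin n)) (s : Fin n → Fin 2) (x : Cf n),
    u (fun i => s (π i)) (fun i => x (π i)) = ((Equiv.Perm.sign π : ℤ) : ℝ) * u s x

/-- derivative in coordinate `i` of electron `k` -/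
noncomputable def dv {n : ℕ} (k : Fin n) (i : Fin 3) (v : Cf n → ℝ) (x : Cf n) : ℝ :=
  fderiv ℝ v x (Pi.single k (Pi.single i 1))

/-- square of the norm, sum over spins -/
noncomputable def sq {n : ℕ} (u : Wf n) : ℝ := ∑ s, ∫ x, u s x ^ 2

/-- inner product, sum over spins -/
noncomputable def ip {n : ℕ} (u v : Wf n) : ℝ := ∑ s, ∫ x, u s x * v s x

/-- kinetic energy -/
noncomputable def kin {n : ℕ} (u : Wf n) : ℝ := ∑ k, ∑ i, sq (fun s => dv k i (u s))

/-- second derivatives -/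
noncomputable def dd {n : ℕ} (u : Wf n) : ℝ :=
  ∑ k, ∑ i, ∑ l, ∑ m, sq (fun s => dv k i (dv l m (u s)))

/-- sum of `1/|x_k|` -/
noncomputable def att {n : ℕ} (x : Cf n) : ℝ := ∑ k, 1 / nr (x k)

/-- electron repulsion -/
noncomputable def rep {n : ℕ} (x : Cf n) : ℝ :=
  ∑ k, ∑ l, if k < l then 1 / nr (x k - x l) else 0

/-- expectation of a one-body multiplication operator -/
noncomputable def one {n : ℕ} (w : R3 → ℝ) (u : Wf n) : ℝ :=
  ∑ s, ∫ x, (∑ k, w (x k)) * u s x ^ 2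

/-- repulsion energy -/
noncomputable def pair {n : ℕ} (u : Wf n) : ℝ := ∑ s, ∫ x, rep x * u s x ^ 2

/-- quadratic form of the atom of nuclear charge `Z` -/
noncomputable def Q {n : ℕ} (Z : ℝ) (u : Wf n) : ℝ :=
  kin u + pair u - Z * one (fun y => 1 / nr y) u

/-- bilinear form -/
noncomputable def Qb {n : ℕ} (Z : ℝ) (u v : Wf n) : ℝ :=
  (∑ k, ∑ i, ip (fun s => dv k i (u s)) (fun s => dv k i (v s))) +
    ∑ s, ∫ x, (rep x - Z * att x) * (u s x * v s x)

/-- the Hamiltonian -/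
noncomputable def hm {n : ℕ} (Z : ℝ) (v : Cf n → ℝ) (x : Cf n) : ℝ :=
  -(∑ k, ∑ i, dv k i (dv k i v) x) + (rep x - Z * att x) * v x

/-- `E` is a lower bound of the energy -/
def Low (n : ℕ) (Z E : ℝ) : Prop := ∀ ψ : Wf n, Sm ψ → Anti ψ → E * sq ψ ≤ Q Z ψ

/-- square of the norm of `(H - E) u` -/
noncomputable def res {n : ℕ} (Z E : ℝ) (u : Wf n) : ℝ :=
  sq (fun s x => hm Z (u s) x - E * u s x)

/-- derivative on space -/
noncomputable def pd (i : Fin 3) (g : R3 → ℝ) (y : R3) : ℝ := fderiv ℝ g y (Pi.single i 1)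

/-- Laplace operator on space -/
noncomputable def lap (g : R3 → ℝ) (y : R3) : ℝ := ∑ i, pd i (pd i g) y

/-- square of the gradient on space -/
noncomputable def grd (g : R3 → ℝ) (y : R3) : ℝ := ∑ i, pd i g y ^ 2

/-- one-body multiplication operator -/
noncomputable def Fg {n : ℕ} (g : R3 → ℝ) (v : Cf n → ℝ) (x : Cf n) : ℝ := (∑ k, g (x k)) * v x

/-- one-body momentum operator of the field `∇ g` -/
noncomputable def Pg {n : ℕ} (g : R3 → ℝ) (v : Cf n → ℝ) (x : Cf n) : ℝ :=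
  ∑ k, ((∑ i, pd i g (x k) * dv k i v x) + lap g (x k) / 2 * v x)

/-- the same for a pair (function, gradient) -/
noncomputable def PG {n : ℕ} (g : R3 → ℝ) (φ : Wf n) (G : Fin n → Fin 3 → Wf n) : Wf n :=
  fun s x => ∑ k, ((∑ i, pd i g (x k) * G k i s x) + lap g (x k) / 2 * φ s x)

/-- `φ` (with weak gradient `G`) is a ground state of the neutral atom with `n` electrons and
ground state energy `E`: `φ` is in `H^2` (closure of the smooth compactly supported functions),
antisymmetric, normalized, `H φ = E φ`, and `E` is the bottom of the spectrum. -/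
structure Ground (n : ℕ) (E : ℝ) (φ : Wf n) (G : Fin n → Fin 3 → Wf n) : Prop where
  lp : ∀ s, MemLp (φ s) 2
  lpG : ∀ k i s, MemLp (G k i s) 2
  anti : ∀ (π : Equiv.Perm (Fin n)) (s : Fin n → Fin 2), ∀ᵐ x : Cf n,
    φ (fun i => s (π i)) (fun i => x (π i)) = ((Equiv.Perm.sign π : ℤ) : ℝ) * φ s x
  norm : sq φ = 1
  low : Low n n E
  eigen : ∃ (S : Fin n → Fin 3 → Fin n → Fin 3 → Wf n) (u : ℕ → Wf n),
    (∀ k i l m s, MemLp (S k i l m s) 2) ∧ (∀ j, Sm (u j)) ∧
    Tendsto (fun j => sq (fun s x => u j s x - φ s x)) atTop (nhds 0) ∧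
    (∀ k i, Tendsto (fun j => sq (fun s x => dv k i (u j s) x - G k i s x)) atTop (nhds 0)) ∧
    (∀ k i l m, Tendsto (fun j => sq (fun s x => dv k i (dv l m (u j s)) x - S k i l m s x))
      atTop (nhds 0)) ∧
    ∀ s, ∀ᵐ x : Cf n, -(∑ k, ∑ i, S k i k i s x) + (rep x - (n : ℝ) * att x) * φ s x = E * φ s x

/-- total momentum squared -/
noncomputable def mom {n : ℕ} (G : Fin n → Fin 3 → Wf n) : ℝ :=
  ∑ i, sq (fun s x => ∑ k, G k i s x)

/-- kinetic energy -/
noncomputable def kinG {n : ℕ} (G : Fin n → Fin 3 → Wf n) : ℝ := ∑ k, ∑ i, sq (G k i)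

/-- a half-open cube -/
def cube (c : R3) (l : ℝ) : Set R3 := {y | ∀ i, c i ≤ y i ∧ y i < c i + l}

/-- mean value over the cube in the variable `x k` -/
noncomputable def av {n : ℕ} (k : Fin n) (c : R3) (l : ℝ) (v : Cf n → ℝ) (x : Cf n) : ℝ :=
  (l ^ 3)⁻¹ * ∫ y in cube c l, v (Function.update x k y)

/-- bounds of the derivatives of `g` at length scale `r` -/
structure Scale (g : R3 → ℝ) (K r : ℝ) : Prop where
  sm : ContDiff ℝ (⊤ : ℕ∞) g
  cs : HasCompactSupport g
  d1 : ∀ i y, |pd i g y| ≤ K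
  d2 : ∀ i j y, |pd i (pd j g) y| ≤ K / r
  d3 : ∀ i j l y, |pd i (pd j (pd l g)) y| ≤ K / r ^ 2
  d4 : ∀ i j l m y, |pd i (pd j (pd l (pd m g))) y| ≤ K / r ^ 3

/-- indicator of the ball -/
noncomputable def ball (R : ℝ) : R3 → ℝ := Set.indicator {y | nr y ≤ R} (fun _ => 1)

end Pool.Agent.Helper95.PW
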