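import Pool.Agent.Helper95.PW.Stmts
import Pool.Agent.Helper95.PW.MOM2
import Pool.Agent.Helper17.PW.MAIN

/-! # The main theorem with the exponent `-1/15` (after Helper17/PW/MAIN) -/

set_option autoImplicit false

namespace Pool.Agent.Helper95.PW

open MeasureTheory Filter

/-- the main theorem, sharper exponent -/
def ST_MAIN2 : Prop := (∃ C : ℝ, 0 < C ∧ ∀ (n : ℕ) (E : ℝ) (φ : Wf n)
    (G : Fin n → Fin 3 → Wf n), 1 ≤ n → Ground n E φ G →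
    mom G ≤ C * (n : ℝ) ^ (-(1 / 15) : ℝ) * kinG G) ∧
  ∃ n1 : ℕ, ∀ (n : ℕ) (E : ℝ) (φ : Wf n) (G : Fin n → Fin 3 → Wf n), n1 ≤ n → Ground n E φ G →
    mom G ≤ 3 * kinG G

open S17 in
theorem st_MAIN2 (hMOM : ST_MOM2) (hTLO : ST_TLO) : ST_MAIN2 := by
  obtain ⟨C, hC, hM⟩ := hMOM
  obtain ⟨c, n0, hc, hT⟩ := hTLO
  have h1 : ∃ C : ℝ, 0 < C ∧ ∀ (n : ℕ) (E : ℝ) (φ : Wf n)
      (G : Fin n → Fin 3 → Wf n), 1 ≤ n → Ground n E φ G →
      mom G ≤ C * (n : ℝ) ^ (-(1 / 15) : ℝ) * kinG G := by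
    refine ⟨C / c + n0 * (n0 : ℝ) ^ (1 / 15 : ℝ), by positivity, ?_⟩
    intro n E φ G hn hG
    have hk := kinG_nonneg G
    have hn0 : (0 : ℝ) < n := by exact_mod_cast hn
    have hp : (0 : ℝ) < (n : ℝ) ^ (-(1 / 15) : ℝ) := by positivity
    by_cases hnn : n0 ≤ n
    · obtain ⟨hE, hK⟩ := hT n E φ G hnn hG
      have h2 := hM n E φ G hn hG hE
      have e1 : (n : ℝ) ^ (34 / 15 : ℝ) =
          (n : ℝ) ^ (7 / 3 : ℝ) * (n : ℝ) ^ (-(1 / 15) : ℝ) := by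
        rw [← Real.rpow_add hn0]
        norm_num
      have h3 : C * (n : ℝ) ^ (34 / 15 : ℝ) ≤
          C / c * (n : ℝ) ^ (-(1 / 15) : ℝ) * kinG G := by
        rw [e1]
        have h4 : C / c * (n : ℝ) ^ (-(1 / 15) : ℝ) * (c * (n : ℝ) ^ (7 / 3 : ℝ)) ≤
            C / c * (n : ℝ) ^ (-(1 / 15) : ℝ) * kinG G :=
          mul_le_mul_of_nonneg_left hK (by positivity)
        refine le_trans (le_of_eq ?_) h4
        field_simp
      have h5 : 0 ≤ (n0 : ℝ) * (n0 : ℝ) ^ (1 / 15 : ℝ) * (n : ℝ) ^ (-(1 / 15) : ℝ) * kinG G := by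
        positivity
      rw [add_mul, add_mul]
      linarith
    · have hle : (n : ℝ) ≤ n0 := by exact_mod_cast (not_le.1 hnn).le
      have h2 := mom_le G hG.lpG
      have h3 : (1 : ℝ) ≤ (n0 : ℝ) ^ (1 / 15 : ℝ) * (n : ℝ) ^ (-(1 / 15) : ℝ) := by
        rw [Real.rpow_neg hn0.le, ← div_eq_mul_inv, one_le_div (by positivity)]
        exact Real.rpow_le_rpow hn0.le hle (by norm_num)
      have h4 : (n : ℝ) ≤ n0 * (n0 : ℝ) ^ (1 / 15 : ℝ) * (n : ℝ) ^ (-(1 / 15) : ℝ) := by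
        calc (n : ℝ) ≤ n0 * 1 := by linarith
          _ ≤ n0 * ((n0 : ℝ) ^ (1 / 15 : ℝ) * (n : ℝ) ^ (-(1 / 15) : ℝ)) :=
              mul_le_mul_of_nonneg_left h3 (by positivity)
          _ = n0 * (n0 : ℝ) ^ (1 / 15 : ℝ) * (n : ℝ) ^ (-(1 / 15) : ℝ) := by ring
      have h5 : 0 ≤ C / c * (n : ℝ) ^ (-(1 / 15) : ℝ) * kinG G := by positivity
      have h6 := mul_le_mul_of_nonneg_right h4 hk
      rw [add_mul, add_mul]
      linarith
  refine ⟨h1, ?_⟩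
  obtain ⟨D, hD, h2⟩ := h1
  have ht : Tendsto (fun n : ℕ => D * (n : ℝ) ^ (-(1 / 15) : ℝ)) atTop (nhds (D * 0)) :=
    ((tendsto_rpow_neg_atTop (by norm_num : (0 : ℝ) < 1 / 15)).comp
      tendsto_natCast_atTop_atTop).const_mul D
  rw [mul_zero] at ht
  obtain ⟨n1, hn1⟩ := eventually_atTop.1 (ht.eventually (gt_mem_nhds (by norm_num : (0 : ℝ) < 3)))
  refine ⟨max n1 1, fun n E φ G hn hG => ?_⟩
  have h3 := h2 n E φ G (le_trans (le_max_right _ _) hn) hG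
  have h4 := hn1 n (le_trans (le_max_left _ _) hn)
  exact h3.trans (mul_le_mul_of_nonneg_right h4.le (kinG_nonneg G))

end Pool.Agent.Helper95.PW
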