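import Pool.Agent.Helper95.PW.Defs

/-!
# Heavy atoms: the momentum of the electrons is smaller than the kinetic energy

All functions `u` are smooth with compact support.  Statements of the rows.
-/

set_option autoImplicit false

namespace Pool.Agent.Helper95.PW

open MeasureTheory Filter

/-! ### basic analysis -/

def ST_IBP : Prop := ∀ (n : ℕ) (k : Fin n) (i : Fin 3) (v w : Cf n → ℝ),
  ContDiff ℝ (⊤ : ℕ∞) v → HasCompactSupport v → ContDiff ℝ (⊤ : ℕ∞) w →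
  ∫ x, dv k i v x * w x = -∫ x, v x * dv k i w x

/-- Hardy -/
def ST_HA1 : Prop := ∀ (n : ℕ) (k : Fin n) (v : Cf n → ℝ),
  ContDiff ℝ (⊤ : ℕ∞) v → HasCompactSupport v →
  Integrable (fun x : Cf n => v x ^ 2 / nr (x k) ^ 2) ∧
  ∫ x, v x ^ 2 / nr (x k) ^ 2 ≤ 4 * ∫ x, ∑ i, dv k i v x ^ 2

/-- Hardy in the relative variable -/
def ST_HA2 : Prop := ∀ (n : ℕ) (k l : Fin n) (v : Cf n → ℝ), k ≠ l →
  ContDiff ℝ (⊤ : ℕ∞) v → HasCompactSupport v →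
  Integrable (fun x : Cf n => v x ^ 2 / nr (x k - x l) ^ 2) ∧
  ∫ x, v x ^ 2 / nr (x k - x l) ^ 2 ≤ 4 * ∫ x, ∑ i, dv k i v x ^ 2

/-- integrability -/
def ST_INT : Prop := ∀ (n : ℕ) (v w : Cf n → ℝ),
  ContDiff ℝ (⊤ : ℕ∞) v → HasCompactSupport v → ContDiff ℝ (⊤ : ℕ∞) w → HasCompactSupport w →
  Integrable (fun x : Cf n => att x * (v x * w x)) ∧
  Integrable (fun x : Cf n => rep x * (v x * w x)) ∧
  Integrable (fun x : Cf n => (att x * v x) ^ 2) ∧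
  Integrable (fun x : Cf n => (rep x * v x) ^ 2)

/-! ### Pauli principle in cubes -/

def ST_POI : Prop := ∃ C : ℝ, 0 < C ∧ ∀ (n : ℕ) (k : Fin n) (v : Cf n → ℝ) (c : R3) (l : ℝ),
  ContDiff ℝ (⊤ : ℕ∞) v → HasCompactSupport v → 0 < l →
  ∫ x in {x : Cf n | x k ∈ cube c l}, v x ^ 2 ≤
    (∫ x in {x : Cf n | x k ∈ cube c l}, av k c l v x ^ 2) +
      C * l ^ 2 * ∫ x in {x : Cf n | x k ∈ cube c l}, ∑ i, dv k i v x ^ 2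

def ST_PAU : Prop := ∀ (n : ℕ) (u : Wf n) (c : R3) (l : ℝ), Sm u → Anti u → 0 < l →
  ∑ k, ∑ s, ∫ x in {x : Cf n | x k ∈ cube c l}, av k c l (u s) x ^ 2 ≤ 2 * sq u

def ST_CUB : Prop := ∃ C : ℝ, 0 < C ∧ ∀ (n : ℕ) (u : Wf n) (c : R3) (l : ℝ),
  Sm u → Anti u → 0 < l →
  ∑ k, ∑ s, ∫ x in {x : Cf n | x k ∈ cube c l}, u s x ^ 2 ≤
    2 * sq u + C * l ^ 2 *
      ∑ k, ∑ s, ∫ x in {x : Cf n | x k ∈ cube c l}, ∑ i, dv k i (u s) x ^ 2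

def ST_NR : Prop := ∃ C : ℝ, 0 < C ∧ ∀ (n : ℕ) (u : Wf n), Sm u → Anti u → sq u ≤ 2 →
  ∀ R : ℝ, 0 < R → one (ball R) u ≤ C * (1 + (kin u * R ^ 2) ^ (3 / 5 : ℝ))

def ST_ATT : Prop := ∃ C : ℝ, 0 < C ∧ ∀ (n : ℕ) (u : Wf n), 1 ≤ n → Sm u → Anti u → sq u ≤ 2 →
  one (fun y => 1 / nr y) u ≤ C * (n : ℝ) ^ (1 / 6 : ℝ) * Real.sqrt (kin u)

def ST_TUP : Prop := ∃ C : ℝ, 0 < C ∧ ∀ (n : ℕ) (u : Wf n), 1 ≤ n → Sm u → Anti u → sq u ≤ 2 →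
  Q n u ≤ 1 →
  kin u ≤ C * (n : ℝ) ^ (7 / 3 : ℝ) ∧ pair u ≤ C * (n : ℝ) ^ (7 / 3 : ℝ) ∧
  n * one (fun y => 1 / nr y) u ≤ C * (n : ℝ) ^ (7 / 3 : ℝ)

/-! ### the form and the operators -/

def ST_QH : Prop := ∀ (n : ℕ) (Z : ℝ) (u v : Wf n), Sm u → Sm v →
  Qb Z u v = ∑ s, ∫ x, v s x * hm Z (u s) x ∧ Q Z u = Qb Z u u

def ST_CSQ : Prop := ∀ (n : ℕ) (Z E : ℝ) (u v : Wf n), Low n Z E → Sm u → Anti u → Sm v →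
  Anti v → (Qb Z u v - E * ip u v) ^ 2 ≤ (Q Z u - E * sq u) * (Q Z v - E * sq v)

def ST_STB : Prop := ∀ (n : ℕ) (g : R3 → ℝ) (u : Wf n), ContDiff ℝ (⊤ : ℕ∞) g → Sm u →
  Sm (fun s => Fg g (u s)) ∧ Sm (fun s => Pg g (u s)) ∧
  (Anti u → Anti (fun s => Fg g (u s)) ∧ Anti (fun s => Pg g (u s)))

def ST_PAN : Prop := ∀ (n : ℕ) (g : R3 → ℝ) (v w : Cf n → ℝ), ContDiff ℝ (⊤ : ℕ∞) g →
  ContDiff ℝ (⊤ : ℕ∞) v → HasCompactSupport v → ContDiff ℝ (⊤ : ℕ∞) w →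
  ∫ x, Pg g v x * w x = -∫ x, v x * Pg g w x

def ST_HF : Prop := ∀ (n : ℕ) (Z : ℝ) (g : R3 → ℝ) (v : Cf n → ℝ) (x : Cf n),
  ContDiff ℝ (⊤ : ℕ∞) g → ContDiff ℝ (⊤ : ℕ∞) v →
  hm Z (Fg g v) x = (∑ k, g (x k)) * hm Z v x - 2 * Pg g v x

def ST_AID : Prop := ∀ (n : ℕ) (Z E : ℝ) (g : R3 → ℝ) (u : Wf n), ContDiff ℝ (⊤ : ℕ∞) g →
  Sm u →
  Q Z (fun s => Fg g (u s)) - E * sq (fun s => Fg g (u s)) =
    (∑ s, ∫ x, Fg g (Fg g (u s)) x * (hm Z (u s) x - E * u s x)) + one (grd g) u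

def ST_CID : Prop := ∀ (n : ℕ) (Z E : ℝ) (g : R3 → ℝ) (u : Wf n), ContDiff ℝ (⊤ : ℕ∞) g →
  Sm u →
  Qb Z (fun s => Fg g (u s)) (fun s => Pg g (u s)) -
      E * ip (fun s => Fg g (u s)) (fun s => Pg g (u s)) =
    (∑ s, ∫ x, Fg g (Pg g (u s)) x * (hm Z (u s) x - E * u s x)) - 2 * sq (fun s => Pg g (u s))

/-- kinetic double commutator -/
def ST_KIN : Prop := ∃ C : ℝ, 0 < C ∧ ∀ (n : ℕ) (g : R3 → ℝ) (K r R : ℝ) (u : Wf n),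
  Scale g K r → 0 < r → (∀ y, R < nr y → g y = 0) → Sm u →
  kin (fun s => Pg g (u s)) -
      (∑ s, ∫ x, Pg g (Pg g (u s)) x * ∑ k, ∑ i, dv k i (dv k i (u s)) x) ≤
    C * K ^ 2 * (kin u / r ^ 2 + one (ball R) u / r ^ 4)

/-- double commutator of the repulsion -/
def ST_POE : Prop := ∃ C : ℝ, 0 < C ∧ ∀ (n : ℕ) (g : R3 → ℝ) (K r : ℝ) (u : Wf n),
  Scale g K r → 0 < r → Sm u →
  pair (fun s => Pg g (u s)) + (∑ s, ∫ x, rep x * (Pg g (Pg g (u s)) x * u s x)) ≤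
    C * K ^ 2 / r ^ 2 * pair u

/-- double commutator of the attraction, shell -/
def ST_PON : Prop := ∃ C : ℝ, 0 < C ∧ ∀ (n : ℕ) (g : R3 → ℝ) (K r : ℝ) (u : Wf n),
  Scale g K r → 0 < r → (∀ y, nr y < r → g y = 0) → Sm u →
  -(one (fun y => 1 / nr y) (fun s => Pg g (u s)) +
      (∑ s, ∫ x, att x * (Pg g (Pg g (u s)) x * u s x))) ≤
    C * K ^ 2 / r ^ 2 * one (fun y => 1 / nr y) u

/-- the Morawetz kernel -/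
noncomputable def mor (s : ℝ) (y : R3) : ℝ := 15 / 2 * s ^ 4 / (nr y ^ 2 + s ^ 2) ^ (7 / 2 : ℝ)

/-- double commutator of the attraction, inner ball, sum over the three directions -/
def ST_PIN : Prop := ∃ C : ℝ, 0 < C ∧ ∀ (n : ℕ) (g : Fin 3 → R3 → ℝ) (K R B : ℝ) (u : Wf n),
  (∀ m, Scale (g m) K R) → 0 < R → (∀ m y, nr y < R → g m y = y m) → Sm u →
  (∀ s : ℝ, 0 < s → one (mor s) u ≤ B) →
  -(∑ m, (one (fun y => 1 / nr y) (fun s => Pg (g m) (u s)) +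
      (∑ s, ∫ x, att x * (Pg (g m) (Pg (g m) (u s)) x * u s x)))) ≤
    C * K ^ 2 / R ^ 2 * one (fun y => 1 / nr y) u + B / 2

def ST_BID : Prop := ∃ C : ℝ, 0 < C ∧ ∀ (n : ℕ) (Z E : ℝ) (g : R3 → ℝ) (K r R : ℝ) (u : Wf n),
  0 ≤ Z → Scale g K r → 0 < r → (∀ y, nr y < r → g y = 0) → (∀ y, R < nr y → g y = 0) → Sm u →
  Q Z (fun s => Pg g (u s)) - E * sq (fun s => Pg g (u s)) ≤
    -(∑ s, ∫ x, Pg g (Pg g (u s)) x * (hm Z (u s) x - E * u s x)) +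
    C * K ^ 2 * ((kin u + pair u + Z * one (fun y => 1 / nr y) u) / r ^ 2 +
      one (ball R) u / r ^ 4)

def ST_BIN : Prop := ∃ C : ℝ, 0 < C ∧ ∀ (n : ℕ) (Z E : ℝ) (g : Fin 3 → R3 → ℝ) (K R B : ℝ)
  (u : Wf n), 0 ≤ Z → (∀ m, Scale (g m) K R) → 0 < R → (∀ m y, nr y < R → g m y = y m) →
  (∀ m y, 2 * R < nr y → g m y = 0) → Sm u → (∀ s : ℝ, 0 < s → one (mor s) u ≤ B) →
  ∑ m, (Q Z (fun s => Pg (g m) (u s)) - E * sq (fun s => Pg (g m) (u s))) ≤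
    -(∑ m, ∑ s, ∫ x, Pg (g m) (Pg (g m) (u s)) x * (hm Z (u s) x - E * u s x)) +
    C * K ^ 2 * ((kin u + pair u + Z * one (fun y => 1 / nr y) u) / R ^ 2 +
      one (ball (2 * R)) u / R ^ 4) + Z * B / 2

/-- the Morawetz inequality -/
def ST_MOR : Prop := ∀ (n : ℕ) (Z E s : ℝ) (u : Wf n), 0 ≤ Z → 0 < s → Sm u →
  one (mor s) u ≤ 4 * Z * kin u + 8 * Real.sqrt (n * kin u * res Z E u)

def ST_ERR : Prop := ∀ (n : ℕ) (g : R3 → ℝ), ContDiff ℝ (⊤ : ℕ∞) g → HasCompactSupport g →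
  ∃ C : ℝ, 0 < C ∧ ∀ u : Wf n, Sm u →
    sq (fun s => Fg g (Fg g (u s))) ≤ C * sq u ∧
    sq (fun s => Pg g (u s)) ≤ C * (kin u + sq u) ∧
    sq (fun s => Fg g (Pg g (u s))) ≤ C * (kin u + sq u) ∧
    sq (fun s => Pg g (Pg g (u s))) ≤ C * (dd u + kin u + sq u)

/-! ### the main inequality for smooth functions -/

def ST_SHL : Prop := ∃ C : ℝ, 0 < C ∧ ∀ (n : ℕ) (Z E : ℝ) (g : R3 → ℝ) (K r R M : ℝ),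
  Low n Z E → 0 ≤ Z → Scale g K r → 0 < r → (∀ y, nr y < r → g y = 0) →
  (∀ y, R < nr y → g y = 0) → ∃ C' : ℝ, 0 < C' ∧ ∀ u : Wf n, Sm u → Anti u → sq u ≤ 2 →
  kin u ≤ M → pair u ≤ M → one (fun y => 1 / nr y) u ≤ M → dd u ≤ M → res Z E u ≤ 1 →
  sq (fun s => Pg g (u s)) ^ 2 ≤
    C * K ^ 4 * (one (ball R) u * ((kin u + pair u + Z * one (fun y => 1 / nr y) u) / r ^ 2 +
      one (ball R) u / r ^ 4)) + C' * Real.sqrt (res Z E u)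

def ST_INL : Prop := ∃ C : ℝ, 0 < C ∧ ∀ (n : ℕ) (Z E : ℝ) (g : Fin 3 → R3 → ℝ) (K R M : ℝ),
  Low n Z E → 0 ≤ Z → 1 ≤ K → (∀ m, Scale (g m) K R) → 0 < R →
  (∀ m y, nr y < R → g m y = y m) → (∀ m y, 2 * R < nr y → g m y = 0) →
  ∃ C' : ℝ, 0 < C' ∧ ∀ u : Wf n, Sm u → Anti u → sq u ≤ 2 →
  kin u ≤ M → pair u ≤ M → one (fun y => 1 / nr y) u ≤ M → dd u ≤ M → res Z E u ≤ 1 →
  ∀ m, sq (fun s => Pg (g m) (u s)) ^ 2 ≤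
    C * K ^ 4 * (one (ball (2 * R)) u *
      ((kin u + pair u + Z * one (fun y => 1 / nr y) u) / R ^ 2 +
        one (ball (2 * R)) u / R ^ 4 + Z ^ 2 * kin u)) + C' * Real.sqrt (res Z E u)

/-! ### cut off functions -/

noncomputable def gm (m : Fin 3) (R : ℝ) (y : R3) : ℝ :=
  y m * Real.smoothTransition (2 - (y 0 ^ 2 + y 1 ^ 2 + y 2 ^ 2) / R ^ 2)

def ST_CUT : Prop := ∃ K : ℝ, 1 ≤ K ∧ (∀ (m : Fin 3) (R : ℝ), 0 < R →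
    Scale (gm m R) K R ∧ (∀ y, nr y ≤ R → gm m R y = y m) ∧ (∀ y, 2 * R ≤ nr y → gm m R y = 0)) ∧
  ∀ (m : Fin 3) (r R : ℝ), 0 < r → r ≤ R → Scale (fun y => gm m R y - gm m r y) K r ∧
    (∀ y, nr y < r → gm m R y - gm m r y = 0) ∧ (∀ y, 2 * R < nr y → gm m R y - gm m r y = 0)

/-! ### ground states -/

/-- approximation of a ground state -/
def Appr {n : ℕ} (E : ℝ) (φ : Wf n) (G : Fin n → Fin 3 → Wf n) (u : ℕ → Wf n) : Prop :=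
  (∀ j, Sm (u j) ∧ Anti (u j)) ∧
  Tendsto (fun j => sq (fun s x => u j s x - φ s x)) atTop (nhds 0) ∧
  (∀ k i, Tendsto (fun j => sq (fun s x => dv k i (u j s) x - G k i s x)) atTop (nhds 0)) ∧
  (∃ M : ℝ, ∀ j, dd (u j) ≤ M) ∧ Tendsto (fun j => res n E (u j)) atTop (nhds 0)

def ST_APX : Prop := ∀ (n : ℕ) (E : ℝ) (φ : Wf n) (G : Fin n → Fin 3 → Wf n),
  Ground n E φ G → ∃ u : ℕ → Wf n, Appr E φ G u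

def ST_LMT : Prop := ∀ (n : ℕ) (E : ℝ) (φ : Wf n) (G : Fin n → Fin 3 → Wf n) (u : ℕ → Wf n),
  Ground n E φ G → Appr E φ G u →
  Tendsto (fun j => sq (u j)) atTop (nhds 1) ∧
  Tendsto (fun j => kin (u j)) atTop (nhds (kinG G)) ∧
  ∀ g : R3 → ℝ, ContDiff ℝ (⊤ : ℕ∞) g → HasCompactSupport g →
    Tendsto (fun j => sq (fun s => Pg g (u j s))) atTop (nhds (sq (PG g φ G)))

def ST_LIM : Prop := ∀ (n : ℕ) (E : ℝ) (φ : Wf n) (G : Fin n → Fin 3 → Wf n) (m : Fin 3),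
  Ground n E φ G →
  Tendsto (fun L : ℕ => sq (PG (gm m (L + 1)) φ G)) atTop (nhds (sq (fun s x => ∑ k, G k m s x)))

def ST_PIE : Prop := ∃ C : ℝ, 0 < C ∧ ∀ (n : ℕ) (E : ℝ) (φ : Wf n) (G : Fin n → Fin 3 → Wf n)
  (m : Fin 3) (r R ν : ℝ), 1 ≤ n → Ground n E φ G → E ≤ 0 → 0 < r → r ≤ R →
  (ν = n ∨ ν = 1 + ((n : ℝ) ^ (7 / 3 : ℝ) * R ^ 2) ^ (3 / 5 : ℝ)) →
  sq (PG (fun y => gm m R y - gm m r y) φ G) ^ 2 ≤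
    C * (ν * ((n : ℝ) ^ (7 / 3 : ℝ) / r ^ 2 + ν / r ^ 4))

def ST_INN : Prop := ∃ C : ℝ, 0 < C ∧ ∀ (n : ℕ) (E : ℝ) (φ : Wf n) (G : Fin n → Fin 3 → Wf n)
  (m : Fin 3) (R ν : ℝ), 1 ≤ n → Ground n E φ G → E ≤ 0 → 0 < R →
  ν = 1 + ((n : ℝ) ^ (7 / 3 : ℝ) * R ^ 2) ^ (3 / 5 : ℝ) →
  sq (PG (gm m R) φ G) ^ 2 ≤
    C * (ν * ((n : ℝ) ^ (7 / 3 : ℝ) / R ^ 2 + ν / R ^ 4 + (n : ℝ) ^ (13 / 3 : ℝ)))

def ST_MOM : Prop := ∃ C : ℝ, 0 < C ∧ ∀ (n : ℕ) (E : ℝ) (φ : Wf n) (G : Fin n → Fin 3 → Wf n),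
  1 ≤ n → Ground n E φ G → E ≤ 0 → mom G ≤ C * (n : ℝ) ^ (7 / 3 - 1 / 300 : ℝ)

/-- trial functions (helper3) -/
def ST_TRI : Prop := ∃ (c : ℝ) (n0 : ℕ), 0 < c ∧ ∀ n : ℕ, n0 ≤ n → ∃ ψ : Wf n, Sm ψ ∧ Anti ψ ∧
  0 < sq ψ ∧ Q n ψ ≤ -(c * (n : ℝ) ^ (7 / 3 : ℝ)) * sq ψ

def ST_TLO : Prop := ∃ (c : ℝ) (n0 : ℕ), 0 < c ∧ ∀ (n : ℕ) (E : ℝ) (φ : Wf n)
  (G : Fin n → Fin 3 → Wf n), n0 ≤ n → Ground n E φ G →
  E ≤ 0 ∧ c * (n : ℝ) ^ (7 / 3 : ℝ) ≤ kinG G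

def ST_MAIN : Prop := (∃ C : ℝ, 0 < C ∧ ∀ (n : ℕ) (E : ℝ) (φ : Wf n)
    (G : Fin n → Fin 3 → Wf n), 1 ≤ n → Ground n E φ G →
    mom G ≤ C * (n : ℝ) ^ (-(1 / 300) : ℝ) * kinG G) ∧
  ∃ n1 : ℕ, ∀ (n : ℕ) (E : ℝ) (φ : Wf n) (G : Fin n → Fin 3 → Wf n), n1 ≤ n → Ground n E φ G →
    mom G ≤ 3 * kinG G

end Pool.Agent.Helper95.PW
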